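import Pool.Agent.H91.CF.TA

/-!
# AGSM: a smooth version of the square root
-/

set_option autoImplicit false

open MeasureTheory Set Filter
open Pool.Agent.H31.CN Pool.Agent.H91.CF
open Pool.Agent.H96.CN (Av Per2)
open scoped Real

namespace Pool.Agent.H29.CF

/-- (GSM) -/
theorem pf_GSM : T_GSM := by
  intro η hη hη4
  have hs0 : ∀ x : ℝ, x ≤ 0 → Real.smoothTransition x = 0 := fun x hx =>
    Real.smoothTransition.zero_of_nonpos hx
  refine ⟨fun u => Real.sqrt u * Real.smoothTransition ((u - η) / η) *
    Real.smoothTransition ((1 - u) / η), ?_, ?_, ?_, ?_, ?_⟩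
  · rw [contDiff_iff_contDiffAt]
    intro x
    by_cases hx : x < η
    · have h1 : (fun u : ℝ => Real.sqrt u * Real.smoothTransition ((u - η) / η) *
          Real.smoothTransition ((1 - u) / η)) =ᶠ[nhds x] fun _ => 0 := by
        filter_upwards [Iio_mem_nhds hx] with u hu
        rw [hs0 ((u - η) / η) (div_nonpos_of_nonpos_of_nonneg (by
          have := mem_Iio.1 hu
          linarith) hη.le), mul_zero, zero_mul]
      exact contDiffAt_const.congr_of_eventuallyEq h1
    · have hx0 : x ≠ 0 := by
        have : 0 < x := lt_of_lt_of_le hη (not_lt.1 hx)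
        exact this.ne'
      refine ContDiffAt.mul (ContDiffAt.mul (Real.contDiffAt_sqrt hx0) ?_) ?_
      · exact Real.smoothTransition.contDiffAt.comp x
          ((contDiffAt_id.sub contDiffAt_const).div_const η)
      · exact Real.smoothTransition.contDiffAt.comp x
          ((contDiffAt_const.sub contDiffAt_id).div_const η)
  · intro u hu
    rw [mem_Icc, not_and_or, not_le, not_le] at hu
    rcases hu with h | h
    · simp only
      rw [hs0 ((u - η) / η) (div_nonpos_of_nonpos_of_nonneg (by linarith) hη.le), mul_zero,
        zero_mul]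
    · simp only
      rw [hs0 ((1 - u) / η) (div_nonpos_of_nonpos_of_nonneg (by linarith) hη.le), mul_zero]
  · intro u
    exact mul_nonneg (mul_nonneg (Real.sqrt_nonneg u) (Real.smoothTransition.nonneg _))
      (Real.smoothTransition.nonneg _)
  · intro u _
    have h1 := Real.smoothTransition.le_one ((u - η) / η)
    have h2 := Real.smoothTransition.le_one ((1 - u) / η)
    have h3 := Real.smoothTransition.nonneg ((u - η) / η)
    have h4 := Real.smoothTransition.nonneg ((1 - u) / η)
    calc Real.sqrt u * Real.smoothTransition ((u - η) / η) *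
          Real.smoothTransition ((1 - u) / η)
        = Real.sqrt u * (Real.smoothTransition ((u - η) / η) *
          Real.smoothTransition ((1 - u) / η)) := by ring
      _ ≤ Real.sqrt u * 1 := by
          refine mul_le_mul_of_nonneg_left ?_ (Real.sqrt_nonneg u)
          exact mul_le_one₀ h1 h4 h2
      _ = Real.sqrt u := mul_one _
  · intro u hu1 hu2
    simp only
    rw [Real.smoothTransition.one_of_one_le (by rw [le_div_iff₀ hη]; linarith),
      Real.smoothTransition.one_of_one_le (by rw [le_div_iff₀ hη]; linarith), mul_one, mul_one]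

end Pool.Agent.H29.CF
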