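import Pool.Agent.H37.CF.Basic

/-!
# CPRA: a number as in the definition of primitive characters
-/

set_option autoImplicit false

open NumberField Pool.Agent.H31.CN Pool.Agent.H95.CF Pool.Agent.H28.RC Pool.Agent.H37.CF
open Pool.Agent.H91.CF (ch npt npD xit xiD pit piD TrQ NRe NVc RQ nn rr ww fmD Fu)
open Pool.Agent.H24.Cls (Quad)
open scoped nonZeroDivisors

namespace Pool.Agent.H29.CF

/-- (PRA) -/
theorem pf_PRA (_hCOP : Pool.Agent.H37.CF.T_COP) (hCYC : Pool.Agent.H37.CF.T_CYC) : T_PRA := by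
  intro K _ _ f p a P h2 hf hp hpf hRat hP hpP
  obtain ⟨hPr, n, hn⟩ := hRat
  have hdv : f / p ∣ f := Nat.div_dvd_of_dvd hpf
  have hfp : f / p * p = f := Nat.div_mul_cancel hpf
  generalize f / p = r at hn hdv hfp
  have hp0 : (p : 𝓞 K) ≠ 0 := by exact_mod_cast hp.ne_zero
  have hf0 : f ≠ 0 := by omega
  obtain ⟨P', hP'⟩ : P ∣ Ideal.span {(p : 𝓞 K)} := by
    rw [Ideal.dvd_span_singleton]
    exact hpP
  have hspan : Ideal.span {(r : 𝓞 K)} * (P * P') = Ideal.span {(f : 𝓞 K)} := by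
    rw [← hP', Ideal.span_singleton_mul_span_singleton, ← Nat.cast_mul, hfp]
  have hpP' : (p : 𝓞 K) ∈ P' := by
    have h1 : (p : 𝓞 K) ∈ P * P' := by
      rw [← hP']
      exact Ideal.mem_span_singleton_self _
    exact Ideal.mul_le_right h1
  have hP'0 : P' ≠ ⊥ := by
    intro h
    rw [h, Ideal.mem_bot] at hpP'
    exact hp0 hpP'
  obtain ⟨t, ht⟩ := mem_fspan.1 hn
  -- an integer close to `t`
  have hj : ∃ j : ℤ, t - j ∈ P' := by
    by_cases hT : P' = ⊤
    · exact ⟨0, by rw [hT]; trivial⟩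
    · refine hCYC K h2 P' hP'0 ?_ t
      intro q hq hle
      by_cases hqp : q = p
      · subst hqp
        have h1 : P' = P * P' := by
          refine le_antisymm ?_ Ideal.mul_le_right
          rw [← hP']
          exact hle
        have h3 : (1 : Ideal (𝓞 K)) * P' = P * P' := by
          rw [one_mul]
          exact h1
        have h4 := mul_right_cancel₀ hP'0 h3
        exact hP.ne_top (by rw [← h4, Ideal.one_eq_top])
      · have h1 : Nat.Coprime q p := (Nat.coprime_primes hq hp).2 hqp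
        apply not_unit_prime (K := K) hq
        rw [Ideal.eq_top_iff_one]
        have h3 := Nat.gcd_eq_gcd_ab q p
        rw [h1] at h3
        have h4 : (1 : 𝓞 K) = q * (Nat.gcdA q p : 𝓞 K) + p * (Nat.gcdB q p : 𝓞 K) := by
          exact_mod_cast congrArg (Int.cast : ℤ → 𝓞 K) h3
        rw [h4]
        exact Ideal.add_mem _ (Ideal.mul_mem_right _ _ (Ideal.mem_span_singleton_self _))
          (Ideal.mul_mem_right _ _ (hle hpP'))
  -- with an integer prime to `p`
  have hj2 : ∃ j : ℤ, t - j ∈ P' ∧ ¬ (p : ℤ) ∣ n + (r : ℤ) * j := by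
    obtain ⟨j, hj⟩ := hj
    by_cases hd : (p : ℤ) ∣ n + (r : ℤ) * j
    · have hT : P' = ⊤ := by
        by_contra hT
        have h1 : ((n + (r : ℤ) * j : ℤ) : 𝓞 K) ∈ P' := by
          obtain ⟨c, hc⟩ := hd
          rw [hc]
          push_cast
          exact Ideal.mul_mem_right _ _ hpP'
        have h3 : a ∈ P' := by
          have h4 : a = ((n + (r : ℤ) * j : ℤ) : 𝓞 K) + (r : 𝓞 K) * (t - j) := by
            have h5 : a = n + (r : 𝓞 K) * t := by rw [← ht]; ring
            rw [h5]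
            push_cast
            ring
          rw [h4]
          exact Ideal.add_mem _ h1 (Ideal.mul_mem_left _ _ hj)
        apply hT
        rw [← top_le_iff, ← hPr.2]
        refine sup_le ?_ ?_
        · rwa [Ideal.span_singleton_le_iff_mem]
        · rw [Ideal.span_singleton_le_iff_mem, ← hfp]
          push_cast
          exact Ideal.mul_mem_left _ _ hpP'
      refine ⟨j + 1, by rw [hT]; trivial, ?_⟩
      intro hd2
      have h6 : (p : ℤ) ∣ (r : ℤ) := by
        have h7 := dvd_sub hd2 hd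
        have h8 : n + (r : ℤ) * (j + 1) - (n + (r : ℤ) * j) =
            (r : ℤ) := by ring
        rwa [h8] at h7
      have h9 : IsCoprime (n + (r : ℤ) * j) (r : ℤ) := by
        refine int_coprime (K := K) hdv hPr ?_
        refine mem_fspan.2 ⟨t - j, ?_⟩
        push_cast
        linear_combination ht
      have h10 := h9.isUnit_of_dvd' hd h6
      rw [Int.isUnit_iff] at h10
      have := hp.two_le
      omega
    · exact ⟨j, hj, hd⟩
  obtain ⟨j, hj, hd⟩ := hj2
  set n₁ : ℤ := n + (r : ℤ) * j with hn₁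
  have ha1 : a - n₁ = (r : 𝓞 K) * (t - j) := by
    rw [hn₁]
    push_cast
    linear_combination ht
  have hc1 : IsCoprime n₁ (r : ℤ) :=
    int_coprime (K := K) hdv hPr (mem_fspan.2 ⟨t - j, ha1⟩)
  have hc2 : IsCoprime n₁ (p : ℤ) := by
    have hpZ : Prime (p : ℤ) := Nat.prime_iff_prime_int.1 hp
    exact (hpZ.coprime_iff_not_dvd.2 hd).symm
  have hc3 : IsCoprime n₁ (f : ℤ) := by
    have h1 : (f : ℤ) = (r : ℤ) * p := by
      rw [← Nat.cast_mul, hfp]
    rw [h1]
    exact hc1.mul_right hc2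
  obtain ⟨u, v, huv⟩ := hc3
  obtain ⟨m, hm1, hm2⟩ := ex_nat hf u
  have hm3 : (f : ℤ) ∣ (m : ℤ) * n₁ - 1 := by
    have h1 : (m : ℤ) * n₁ - 1 = ((m : ℤ) - u) * n₁ - v * f := by
      linear_combination huv
    rw [h1]
    exact dvd_sub (dvd_mul_of_dvd_left hm2 _) (dvd_mul_left _ _)
  clear_value n₁
  obtain ⟨k₁, hk₁⟩ : ∃ k : ℤ, (m : ℤ) * n₁ - 1 = k := ⟨_, rfl⟩
  refine ⟨m, hm1, ?_, ?_⟩
  · rw [← Nat.isCoprime_iff_coprime]
    obtain ⟨c, hc⟩ := hm3
    exact ⟨n₁, -c, by linear_combination hc⟩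
  · intro x hx
    have h1 : (m : 𝓞 K) * a - 1 ∈ Ideal.span {(r : 𝓞 K)} * P' := by
      have h3 : (m : 𝓞 K) * a - 1 = (m : 𝓞 K) * (a - (n₁ : 𝓞 K)) + ((k₁ : ℤ) : 𝓞 K) := by
        rw [← hk₁]
        push_cast
        ring
      rw [h3]
      refine Ideal.add_mem _ (Ideal.mul_mem_left _ _ ?_) ?_
      · rw [ha1]
        exact Ideal.mul_mem_mul (Ideal.mem_span_singleton_self _) hj
      · rw [hk₁] at hm3
        have h4 := fspan_int (K := K) hm3
        rw [← hspan] at h4
        exact Ideal.mul_mono_right Ideal.mul_le_right h4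
    have h5 : ((m : 𝓞 K) * a - 1) * x ∈ Ideal.span {(r : 𝓞 K)} * P' * P :=
      Ideal.mul_mem_mul h1 hx
    rw [mul_assoc, mul_comm P' P, hspan] at h5
    exact h5

end Pool.Agent.H29.CF
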