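import Pool.Agent.H65.CF.T6

/-!
# NPF: the numbers of the unit lines
-/

set_option autoImplicit false

open MeasureTheory Set Filter NumberField
open scoped Real nonZeroDivisors

namespace Pool.Agent.H29.CFH

open Pool.Agent.H31.CN Pool.Agent.H65.AD Pool.Agent.H91.CF Pool.Agent.H65.CF

/-- residues counted in `ZMod p` -/
theorem npf_cnt (p : ℕ) [NeZero p] (P : ZMod p → Prop) [DecidablePred P]
    [DecidablePred fun j : ℕ => P (j : ZMod p)] :
    ((Finset.range p).filter (fun j : ℕ => P (j : ZMod p))).card =
      (Finset.univ.filter P).card := by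
  refine Finset.card_bij (fun (j : ℕ) _ => (j : ZMod p)) ?_ ?_ ?_
  · intro j hj
    simp only [Finset.mem_filter, Finset.mem_range] at hj
    simp [hj.2]
  · intro a ha b hb h
    simp only [Finset.mem_filter, Finset.mem_range] at ha hb
    have h1 := (ZMod.natCast_eq_natCast_iff' a b p).1 h
    rwa [Nat.mod_eq_of_lt ha.1, Nat.mod_eq_of_lt hb.1] at h1
  · intro x hx
    simp only [Finset.mem_filter, Finset.mem_univ, true_and] at hx
    refine ⟨x.val, ?_, ZMod.natCast_zmod_val x⟩
    simp only [Finset.mem_filter, Finset.mem_range]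
    refine ⟨ZMod.val_lt x, ?_⟩
    rw [ZMod.natCast_zmod_val x]
    exact hx

/-- the exponent of `p` in `f1 f` -/
theorem npf_f1 (f p : ℕ) (hf : 0 < f) (hp : p.Prime) (hpf : p ∣ f) : p ∣ f1 f ↔ p ^ 2 ∣ f := by
  have hrd : rd f ∣ f := Nat.prod_primeFactors_dvd f
  have hfe : rd f * f1 f = f := Nat.mul_div_cancel' hrd
  have hprd : p ∣ rd f := by
    unfold rd
    exact Finset.dvd_prod_of_mem (fun q : ℕ => q)
      (Nat.mem_primeFactors.2 ⟨hp, hpf, hf.ne'⟩)
  constructor
  · intro h
    rw [pow_two, ← hfe]
    exact mul_dvd_mul hprd h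
  · intro h
    obtain ⟨r, hr⟩ := hprd
    have hpr : ¬ p ∣ r := by
      rintro ⟨s, hs⟩
      have hsq : Squarefree (rd f) := by
        unfold rd
        exact Finset.squarefree_prod_of_pairwise_isCoprime
          (fun a ha b hb hab => by
            have ha' := Nat.prime_of_mem_primeFactors ha
            have hb' := Nat.prime_of_mem_primeFactors hb
            exact Nat.isCoprime_iff_coprime.2 ((Nat.coprime_primes ha' hb').2 hab) |> fun h => by
              exact (Nat.coprime_iff_isRelPrime.1 (Nat.isCoprime_iff_coprime.1 h)))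
          (fun a ha => (Nat.prime_of_mem_primeFactors ha).squarefree)
      have h1 : p * p ∣ rd f := ⟨s, by rw [hr, hs]; ring⟩
      exact hp.one_lt.ne' (Nat.isUnit_iff.1 (hsq p h1))
    have h2 : p * p ∣ p * (r * f1 f) := by
      have : p * (r * f1 f) = f := by rw [← mul_assoc, ← hr, hfe]
      rw [this, ← pow_two]
      exact h
    have h3 : p ∣ r * f1 f := (Nat.mul_dvd_mul_iff_left hp.pos).1 h2
    rcases (Nat.Prime.dvd_mul hp).1 h3 with h4 | h4
    · exact absurd h4 hpr
    · exact h4

/-- (NPF) -/
theorem pf_NPF (hNRQ : T_NRQ) : T_NPF := by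
  classical
  intro f D p hf hD hp hpf
  obtain ⟨hn, hc, -⟩ := hNRQ D p hD hp
  have hQ1 : (Q1 D).1 = 1 := by unfold Q1; split_ifs <;> rfl
  have hp2 := hp.two_le
  have : NeZero p := ⟨hp.ne_zero⟩
  have : Fact p.Prime := ⟨hp⟩
  have hprt : (prt p (Q1 D) : ℤ) = 1 + ch p D := by
    have h1 : ¬ (p : ℤ) ∣ (Q1 D).1 := by
      rw [hQ1]
      intro h
      have := Int.le_of_dvd one_pos h
      omega
    unfold prt
    rw [if_neg h1, zero_add, hQ1]
    exact hn
  have hch : -1 ≤ ch p D ∧ ch p D ≤ 1 := by
    simp only [Finset.mem_insert, Finset.mem_singleton] at hc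
    rcases hc with h | h | h <;> omega
  refine ⟨?_, ?_, ?_⟩
  · unfold npQ npD npt
    rw [hprt]
    split_ifs
    · rfl
    · ring
  · unfold npD npt
    split_ifs
    · exact_mod_cast hp.one_lt.le
    · have : (2 : ℤ) ≤ p := by exact_mod_cast hp2
      omega
  · set B := (Q1 D).2.1 with hB
    set C := (Q1 D).2.2 with hC
    have hval : ∀ j : ℕ, val (Qp f D) ((j : ℤ), 1) =
        (j : ℤ) ^ 2 + (f1 f : ℤ) * B * j + (f1 f : ℤ) ^ 2 * C := by
      intro j
      unfold val Qp
      simp only
      ring
    have hcast : ∀ j : ℕ, ((p : ℤ) ∣ val (Qp f D) ((j : ℤ), 1)) ↔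
        ((j : ZMod p) ^ 2 + (f1 f : ZMod p) * (B : ZMod p) * (j : ZMod p) +
          (f1 f : ZMod p) ^ 2 * (C : ZMod p) = 0) := by
      intro j
      rw [hval, ← ZMod.intCast_zmod_eq_zero_iff_dvd]
      push_cast
      rfl
    have hcomp := Finset.card_filter_add_card_filter_not (s := Finset.range p)
      (fun j : ℕ => (p : ℤ) ∣ val (Qp f D) ((j : ℤ), 1))
    rw [Finset.card_range] at hcomp
    have hkey : (((Finset.range p).filter (fun j : ℕ =>
        (p : ℤ) ∣ val (Qp f D) ((j : ℤ), 1))).card : ℤ) =
        1 + p - npD f p D := by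
      have h1 : ((Finset.range p).filter (fun j : ℕ =>
          (p : ℤ) ∣ val (Qp f D) ((j : ℤ), 1))).card =
          (Finset.univ.filter (fun x : ZMod p => x ^ 2 + (f1 f : ZMod p) * (B : ZMod p) * x +
            (f1 f : ZMod p) ^ 2 * (C : ZMod p) = 0)).card := by
        rw [← npf_cnt]
        refine congrArg Finset.card (Finset.filter_congr (fun j _ => ?_))
        exact hcast j
      rw [h1]
      by_cases h2 : p ^ 2 ∣ f
      · have h3 : (f1 f : ZMod p) = 0 := (ZMod.natCast_eq_zero_iff _ _).2
          ((npf_f1 f p hf hp hpf).2 h2)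
        have h4 : (Finset.univ.filter (fun x : ZMod p => x ^ 2 +
            (f1 f : ZMod p) * (B : ZMod p) * x + (f1 f : ZMod p) ^ 2 * (C : ZMod p) = 0)) =
            {0} := by
          ext x
          simp [h3]
        rw [h4]
        unfold npD npt
        rw [if_pos h2]
        simp
      · have h3 : (f1 f : ZMod p) ≠ 0 := by
          intro h
          exact h2 ((npf_f1 f p hf hp hpf).1 ((ZMod.natCast_eq_zero_iff _ _).1 h))
        have h4 : (Finset.univ.filter (fun x : ZMod p => x ^ 2 +
            (f1 f : ZMod p) * (B : ZMod p) * x + (f1 f : ZMod p) ^ 2 * (C : ZMod p) = 0)).card =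
            nrt p 1 B C := by
          have h5 : nrt p 1 B C = (Finset.univ.filter (fun x : ZMod p => x ^ 2 +
              (B : ZMod p) * x + (C : ZMod p) = 0)).card := by
            unfold nrt
            rw [← npf_cnt]
            refine congrArg Finset.card (Finset.filter_congr (fun j _ => ?_))
            rw [← ZMod.intCast_zmod_eq_zero_iff_dvd]
            push_cast
            rw [one_mul]
          rw [h5]
          symm
          refine Finset.card_bij (fun x _ => (f1 f : ZMod p) * x) ?_ ?_ ?_
          · intro x hx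
            simp only [Finset.mem_filter, Finset.mem_univ, true_and] at hx ⊢
            linear_combination (f1 f : ZMod p) ^ 2 * hx
          · intro a _ b _ hab
            exact mul_left_cancel₀ h3 hab
          · intro y hy
            simp only [Finset.mem_filter, Finset.mem_univ, true_and] at hy
            refine ⟨(f1 f : ZMod p)⁻¹ * y, ?_, ?_⟩
            · simp only [Finset.mem_filter, Finset.mem_univ, true_and]
              have h6 : (f1 f : ZMod p) ^ 2 * (((f1 f : ZMod p)⁻¹ * y) ^ 2 +
                  (B : ZMod p) * ((f1 f : ZMod p)⁻¹ * y) + (C : ZMod p)) = 0 := by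
                have h7 : (f1 f : ZMod p) * (f1 f : ZMod p)⁻¹ = 1 := mul_inv_cancel₀ h3
                linear_combination hy + (y ^ 2 * ((f1 f : ZMod p) * (f1 f : ZMod p)⁻¹ + 1) +
                  (f1 f : ZMod p) * (B : ZMod p) * y) * h7
              exact (mul_eq_zero.1 h6).resolve_left (pow_ne_zero 2 h3)
            · rw [← mul_assoc, mul_inv_cancel₀ h3, one_mul]
        rw [h4, hn]
        unfold npD npt
        rw [if_neg h2]
        ring
    have hcomp' : (((Finset.range p).filter (fun j : ℕ =>
        (p : ℤ) ∣ val (Qp f D) ((j : ℤ), 1))).card : ℤ) +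
        (((Finset.range p).filter (fun j : ℕ =>
        ¬ (p : ℤ) ∣ val (Qp f D) ((j : ℤ), 1))).card : ℤ) = p := by
      exact_mod_cast hcomp
    linarith

end Pool.Agent.H29.CFH
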